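import Pool.Agent.Lib_MP_369bda_lc.Order
import Pool.Agent.Lib_MP_369bda_lc.Rank

/-!
# The one-to-two-player lift for the chromatic memory of omega-regular objectives

Main result: for every omega-regular objective `W` and every `k`, Eve can play with chromatic
strategies with `k` memory states in all one-player games if and only if she can do so in all
games.
-/

namespace Pool.Agent.Results.MP_369bda_lc.OneToTwoPlayerLift

open Filter Pool.Agent.Lib_MP_369bda_lc

universe u

/-- A finite deterministic parity automaton over the alphabet `α`, with priorities on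
transitions. -/
structure DPA (α : Type) where
  State : Type
  finite : Finite State
  init : State
  next : State → α → State
  prio : State → α → ℕ

/-- A deterministic parity automaton accepts an infinite word if the largest priority that
occurs infinitely often along its run is even. -/
def DPA.Accepts {α : Type} (A : DPA α) (w : ℕ → α) : Prop :=
  PAcc fun n => A.prio (run A.next A.init w n) (w n)

/-- An objective is omega-regular if some finite deterministic parity automaton recognises it. -/
def OmegaRegular {α : Type} (W : Set (ℕ → α)) : Prop := ∃ A : DPA α, ∀ w, w ∈ W ↔ A.Accepts w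

/-- A game: a possibly infinite graph with edges coloured by `α`, in which every vertex has an
outgoing edge, together with the set `eve` of the vertices owned by Eve (Adam owns the others). -/
structure Game (α : Type) where
  V : Type u
  edge : V → α → V → Prop
  total : ∀ v, ∃ a v', edge v a v'
  eve : Set V

namespace Game

variable {α : Type} (G : Game.{u} α)

/-- A game is one-player if Eve owns every vertex. -/
def OnePlayer : Prop := ∀ v, v ∈ G.eve

/-- The play from `v` visiting the vertices `vs 0, vs 1, …` through edges of colours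
`cs 0, cs 1, …`. -/
structure IsPlay (v : G.V) (vs : ℕ → G.V) (cs : ℕ → α) : Prop where
  start : vs 0 = v
  step : ∀ i, G.edge (vs i) (cs i) (vs (i + 1))

/-- The past at time `i`: the list of the pairs (vertex, colour of the edge taken from it). -/
def past (vs : ℕ → G.V) (cs : ℕ → α) (i : ℕ) : List (G.V × α) :=
  (List.range i).map fun j => (vs j, cs j)

/-- A strategy of Eve chooses, at each of her vertices, an outgoing edge (colour and target),
as a function of the past and the current vertex. -/
structure Strategy where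
  move : List (G.V × α) → G.V → α × G.V
  legal : ∀ h, ∀ v ∈ G.eve, G.edge v (move h v).1 (move h v).2

/-- The strategy `σ` of Eve is winning from `v`. -/
def Strategy.WinsFrom {G : Game.{u} α} (σ : G.Strategy) (W : Set (ℕ → α)) (v : G.V) : Prop :=
  ∀ vs cs, G.IsPlay v vs cs →
    (∀ i, vs i ∈ G.eve → (cs i, vs (i + 1)) = σ.move (G.past vs cs i) (vs i)) → cs ∈ W

/-- Eve has a winning strategy from `v`. -/
def EveWinsFrom (W : Set (ℕ → α)) (v : G.V) : Prop := ∃ σ : G.Strategy, σ.WinsFrom W v

/-- A chromatic strategy of Eve with `k` memory states: the memory is updated only according to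
the colours seen; the move depends on the vertex and on the memory state. -/
structure ChromaticStrategy (k : ℕ) where
  init : Fin k
  update : Fin k → α → Fin k
  choice : G.V → Fin k → α × G.V
  legal : ∀ v ∈ G.eve, ∀ m, G.edge v (choice v m).1 (choice v m).2

/-- The chromatic strategy `S` of Eve is winning from `v` (with the memory initially in the
state `S.init`). -/
def ChromaticStrategy.WinsFrom {G : Game.{u} α} {k : ℕ} (S : G.ChromaticStrategy k)
    (W : Set (ℕ → α)) (v : G.V) : Prop :=
  ∀ vs cs, G.IsPlay v vs cs →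
    (∀ i, vs i ∈ G.eve → (cs i, vs (i + 1)) = S.choice (vs i) (run S.update S.init cs i)) →
      cs ∈ W

end Game

/-- `k` memory states suffice for `W` over the class `C` of games: in every game of `C` Eve has
a chromatic strategy with `k` memory states that is winning from every vertex from which she has
a winning strategy. -/
def Suffices {α : Type} (C : Game.{u} α → Prop) (W : Set (ℕ → α)) (k : ℕ) : Prop :=
  ∀ G : Game.{u} α, C G → ∃ S : G.ChromaticStrategy k, ∀ v, G.EveWinsFrom W v → S.WinsFrom W v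

/-! ## Plays in one-player games -/

section plays

variable {α : Type} {G : Game.{u} α} {W : Set (ℕ → α)}

/-- There is a play from `v` with colours `w`. -/
def CanPlay (G : Game.{u} α) (v : G.V) (w : ℕ → α) : Prop := ∃ vs, G.IsPlay v vs w

lemma CanPlay.cons {v v' : G.V} {a : α} {w : ℕ → α} (h : G.edge v a v') (h' : CanPlay G v' w) :
    CanPlay G v (cons a w) := by
  obtain ⟨vs, hs, hst⟩ := h'
  refine ⟨fun n => Nat.casesOn n v vs, rfl, ?_⟩
  intro i
  cases i with
  | zero =>
    change G.edge v a (vs 0)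
    rw [hs]; exact h
  | succ i => exact hst i

/-- Coinduction principle for plays. -/
lemma CanPlay.coind (P : G.V → (ℕ → α) → Prop)
    (hP : ∀ v w, P v w → ∃ v', G.edge v (w 0) v' ∧ P v' (fun n => w (n + 1)))
    (v : G.V) (w : ℕ → α) (h : P v w) : CanPlay G v w := by
  have hP' : ∀ s : {p : G.V × (ℕ → α) // P p.1 p.2}, ∃ t : {p : G.V × (ℕ → α) // P p.1 p.2},
      G.edge s.1.1 (s.1.2 0) t.1.1 ∧ t.1.2 = fun n => s.1.2 (n + 1) := by
    rintro ⟨⟨v, w⟩, h⟩
    obtain ⟨v', h1, h2⟩ := hP v w h
    exact ⟨⟨(v', fun n => w (n + 1)), h2⟩, h1, rfl⟩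
  choose nxt hn1 hn2 using hP'
  let f : ℕ → {p : G.V × (ℕ → α) // P p.1 p.2} := fun n => nxt^[n] ⟨(v, w), h⟩
  have hf : ∀ n, f (n + 1) = nxt (f n) := fun n => Function.iterate_succ_apply' _ _ _
  have hw : ∀ n, (f n).1.2 = fun m => w (n + m) := by
    intro n
    induction n with
    | zero => funext m; simp [f]
    | succ n ih =>
      rw [hf, hn2, ih]
      funext m
      simp only
      congr 1; omega
  refine ⟨fun n => (f n).1.1, rfl, ?_⟩
  intro i
  have h1 := hn1 (f i)
  rw [← hf, hw] at h1
  exact h1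

lemma eveWins_of_canPlay (hG : G.OnePlayer) {v : G.V} {w : ℕ → α} (h : CanPlay G v w)
    (hw : w ∈ W) : G.EveWinsFrom W v := by
  classical
  obtain ⟨vs, hs, hst⟩ := h
  choose a0 v0 hav using G.total
  refine ⟨⟨fun h v => if v = vs h.length then (w h.length, vs (h.length + 1)) else (a0 v, v0 v),
    ?_⟩, ?_⟩
  · intro h v _
    split_ifs with hv
    · rw [hv]; exact hst _
    · exact hav v
  · intro vs' cs' hp hc
    have hlen : ∀ i, (G.past vs' cs' i).length = i := by intro i; simp [Game.past]
    have key : ∀ i, vs' i = vs i := by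
      intro i
      induction i with
      | zero => rw [hp.start, hs]
      | succ i ih =>
        have := hc i (hG _)
        simp only [hlen, ih, if_true] at this
        exact (Prod.ext_iff.1 this).2
    have : cs' = w := by
      funext i
      have := hc i (hG _)
      simp only [hlen, key, if_true] at this
      exact (Prod.ext_iff.1 this).1
    rw [this]; exact hw

lemma canPlay_of_eveWins (hG : G.OnePlayer) {v : G.V} (h : G.EveWinsFrom W v) :
    ∃ w ∈ W, CanPlay G v w := by
  obtain ⟨σ, hσ⟩ := h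
  let s : ℕ → List (G.V × α) × G.V := fun n => Nat.rec ([], v)
    (fun _ s => (s.1 ++ [(s.2, (σ.move s.1 s.2).1)], (σ.move s.1 s.2).2)) n
  have hs : ∀ n, s (n + 1) = ((s n).1 ++ [((s n).2, (σ.move (s n).1 (s n).2).1)],
      (σ.move (s n).1 (s n).2).2) := fun _ => rfl
  let vs : ℕ → G.V := fun n => (s n).2
  let cs : ℕ → α := fun n => (σ.move (s n).1 (s n).2).1
  have hpast : ∀ n, G.past vs cs n = (s n).1 := by
    intro n
    induction n with
    | zero => rfl
    | succ n ih =>
      unfold Game.past at ih ⊢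
      rw [List.range_succ, List.map_append, ih, hs]
      rfl
  have hplay : G.IsPlay v vs cs := ⟨rfl, fun i => σ.legal _ _ (hG _)⟩
  refine ⟨cs, hσ vs cs hplay fun i _ => ?_, vs, hplay⟩
  rw [hpast]

end plays

/-! ## Deterministic plays of memory strategies in one-player games -/

section det

variable {α M : Type} {G : Game.{u} α} {W : Set (ℕ → α)}

/-- For the fixed memory structure `(m0, μ)`, Eve has a uniformly winning strategy in `G`. -/
def Good1 (G : Game.{u} α) (W : Set (ℕ → α)) (m0 : M) (μ : M → α → M)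
    (next : G.V → M → α × G.V) : Prop :=
  (∀ v ∈ G.eve, ∀ m, G.edge v (next v m).1 (next v m).2) ∧
  ∀ v, G.EveWinsFrom W v → ∀ vs cs, G.IsPlay v vs cs →
    (∀ i, vs i ∈ G.eve → (cs i, vs (i + 1)) = next (vs i) (run μ m0 cs i)) → cs ∈ W

/-- one step of the deterministic system -/
def dstep {V : Type u} (μ : M → α → M) (next : V → M → α × V) (s : V × M) : V × M :=
  ((next s.1 s.2).2, μ s.2 (next s.1 s.2).1)

/-- colours produced by the deterministic system -/
def dcol {V : Type u} (μ : M → α → M) (next : V → M → α × V) (s : V × M) (n : ℕ) : α :=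
  (next ((dstep μ next)^[n] s).1 ((dstep μ next)^[n] s).2).1

lemma dcol_eq {V : Type u} (μ : M → α → M) (next : V → M → α × V) (v : V) (m : M) :
    dcol μ next (v, m) = cons (next v m).1 (dcol μ next ((next v m).2, μ m (next v m).1)) := by
  funext n
  cases n with
  | zero => rfl
  | succ n => simp only [cons_succ, dcol, Function.iterate_succ_apply]; rfl

lemma dcol_mem (hG : G.OnePlayer) {m0 : M} {μ : M → α → M} {next : G.V → M → α × G.V}
    (h : Good1 G W m0 μ next) {v : G.V} (hv : G.EveWinsFrom W v) : dcol μ next (v, m0) ∈ W := by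
  have hmem : ∀ n, ((dstep μ next)^[n] (v, m0)).2 = run μ m0 (dcol μ next (v, m0)) n := by
    intro n
    induction n with
    | zero => rfl
    | succ n ih =>
      rw [Function.iterate_succ_apply', run, ← ih]
      rfl
  refine h.2 v hv (fun n => ((dstep μ next)^[n] (v, m0)).1) _ ⟨rfl, fun i => ?_⟩ fun i _ => ?_
  · rw [Function.iterate_succ_apply']
    exact h.1 _ (hG _) _
  · rw [Function.iterate_succ_apply', ← hmem]
    rfl

end det

/-! ## Bouquet games -/

section bouquet

variable {α M : Type}

/-- Vertices of bouquet games: a finite word still to be read before reaching the centre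
`rd []`, or an infinite word still to be read. -/
inductive BV (α : Type) : Type u
  | rd (l : List α)
  | tl (w : ℕ → α)

/-- Edges of bouquet games. -/
def BEdge (loops : Set (List α)) (exits : Set (ℕ → α)) : BV.{u} α → α → BV.{u} α → Prop
  | .rd (b :: l), a, v' => a = b ∧ v' = .rd l
  | .rd [], a, v' => (∃ l, a :: l ∈ loops ∧ v' = .rd l) ∨
      (∃ w ∈ exits, a = w 0 ∧ v' = .tl (fun n => w (n + 1)))
  | .tl w, a, v' => a = w 0 ∧ v' = .tl (fun n => w (n + 1))

/-- Bouquet games: one-player games with centre `rd []`. -/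
def bouquet (loops : Set (List α)) (exits : Set (ℕ → α))
    (hne : (∃ a l, a :: l ∈ loops) ∨ exits.Nonempty) : Game.{u} α where
  V := BV.{u} α
  edge := BEdge loops exits
  total := by
    rintro ((_ | ⟨b, l⟩) | w)
    · rcases hne with ⟨a, l, h⟩ | ⟨w, hw⟩
      · exact ⟨a, .rd l, Or.inl ⟨l, h, rfl⟩⟩
      · exact ⟨w 0, _, Or.inr ⟨w, hw, rfl, rfl⟩⟩
    · exact ⟨b, .rd l, rfl, rfl⟩
    · exact ⟨w 0, _, rfl, rfl⟩
  eve := Set.univ

variable {loops : Set (List α)} {exits : Set (ℕ → α)}
  {hne : (∃ a l, a :: l ∈ loops) ∨ exits.Nonempty}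

lemma bouquet_onePlayer : (bouquet.{u} loops exits hne).OnePlayer := fun v => Set.mem_univ v

lemma canPlay_tl (w : ℕ → α) : CanPlay (bouquet.{u} loops exits hne) (BV.tl w) w := by
  refine CanPlay.coind (fun v w => v = BV.tl w) ?_ _ _ rfl
  rintro _ w rfl
  exact ⟨_, ⟨rfl, rfl⟩, rfl⟩

lemma eq_cons (w : ℕ → α) : w = cons (w 0) (fun n => w (n + 1)) := by
  funext n; cases n <;> rfl

lemma canPlay_exit {w : ℕ → α} (hw : w ∈ exits) :
    CanPlay (bouquet.{u} loops exits hne) (BV.rd []) w := by
  rw [eq_cons w]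
  exact CanPlay.cons (G := bouquet.{u} loops exits hne) (Or.inr ⟨w, hw, rfl, rfl⟩) (canPlay_tl _)

lemma canPlay_rd (l : List α) {w : ℕ → α}
    (h : CanPlay (bouquet.{u} loops exits hne) (BV.rd []) w) :
    CanPlay (bouquet.{u} loops exits hne) (BV.rd l) (app l w) := by
  induction l with
  | nil => exact h
  | cons a l ih => exact CanPlay.cons (G := bouquet.{u} loops exits hne) ⟨rfl, rfl⟩ ih

lemma canPlay_loop {u : List α} (hu : u ∈ loops) (hune : u ≠ []) {w : ℕ → α}
    (h : CanPlay (bouquet.{u} loops exits hne) (BV.rd []) w) :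
    CanPlay (bouquet.{u} loops exits hne) (BV.rd []) (app u w) := by
  cases u with
  | nil => exact absurd rfl hune
  | cons a u =>
    exact CanPlay.cons (G := bouquet.{u} loops exits hne) (Or.inl ⟨u, hu, rfl⟩) (canPlay_rd u h)

/-- Alternating between two loops. -/
lemma canPlay_alt {u t : List α} (hu : u ∈ loops) (hune : u ≠ []) (ht : t ∈ loops)
    (htne : t ≠ []) {w : ℕ → α} (hw : w = app (u ++ t) w) :
    CanPlay (bouquet.{u} loops exits hne) (BV.rd []) w := by
  rw [app_append] at hw
  refine CanPlay.coind (G := bouquet.{u} loops exits hne)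
    (fun v w' => ∃ l, v = BV.rd l ∧ (w' = app l w ∨ w' = app l (app t w))) ?_ _ _
    ⟨[], rfl, Or.inl rfl⟩
  rintro _ w' ⟨l, rfl, hl⟩
  cases l with
  | cons a l =>
    refine ⟨BV.rd l, ⟨?_, rfl⟩, l, rfl, ?_⟩
    · rcases hl with rfl | rfl <;> rfl
    · rcases hl with rfl | rfl
      · exact Or.inl rfl
      · exact Or.inr rfl
  | nil =>
    rcases hl with hl | rfl
    · cases u with
      | nil => exact absurd rfl hune
      | cons a u =>
        have hw' : w' = cons a (app u (app t w)) := by rw [hl]; exact hw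
        refine ⟨BV.rd u, Or.inl ⟨u, ?_, rfl⟩, u, rfl, Or.inr ?_⟩
        · rw [hw']; exact hu
        · rw [hw']; rfl
    · cases t with
      | nil => exact absurd rfl htne
      | cons a t =>
        exact ⟨BV.rd t, Or.inl ⟨t, ht, rfl⟩, t, rfl, Or.inl rfl⟩

variable {W : Set (ℕ → α)} {m0 : M} {μ : M → α → M}

lemma dcol_rd {next : BV.{u} α → M → α × BV.{u} α}
    (hleg : ∀ v m, BEdge loops exits v (next v m).1 (next v m).2) (l : List α) (m : M) :
    dcol μ next (BV.rd l, m) = app l (dcol μ next (BV.rd [], l.foldl μ m)) := by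
  induction l generalizing m with
  | nil => rfl
  | cons a l ih =>
    obtain ⟨h1, h2⟩ : (next (BV.rd (a :: l)) m).1 = a ∧ (next (BV.rd (a :: l)) m).2 = BV.rd l :=
      hleg (BV.rd (a :: l)) m
    rw [dcol_eq, h1, h2, ih, app_cons]
    rfl

lemma dcol_tl {next : BV.{u} α → M → α × BV.{u} α}
    (hleg : ∀ v m, BEdge loops exits v (next v m).1 (next v m).2) (w : ℕ → α) (m : M) :
    dcol μ next (BV.tl w, m) = w := by
  funext n
  induction n generalizing w m with
  | zero =>
    obtain ⟨h1, h2⟩ : (next (BV.tl w) m).1 = w 0 ∧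
        (next (BV.tl w) m).2 = BV.tl fun n => w (n + 1) := hleg (BV.tl w) m
    rw [dcol_eq]
    exact h1
  | succ n ih =>
    obtain ⟨h1, h2⟩ : (next (BV.tl w) m).1 = w 0 ∧
        (next (BV.tl w) m).2 = BV.tl fun n => w (n + 1) := hleg (BV.tl w) m
    rw [dcol_eq, cons_succ, h1, h2, ih]

/-- The bouquet lemma. -/
lemma bouquet_lemma
    (H : ∀ G : Game.{u} α, G.OnePlayer → ∃ next, Good1 G W m0 μ next)
    (hne : (∃ a l, a :: l ∈ loops) ∨ exits.Nonempty) (m : M) :
    (∃ u ∈ loops, u ≠ [] ∧ ∀ x : List α, x.foldl μ m0 = m →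
      (bouquet.{u} loops exits hne).EveWinsFrom W (BV.rd x) → u.foldl μ m = m →
        ∀ w, w = app u w → app x w ∈ W) ∨
    (∃ w ∈ exits, ∀ x : List α, x.foldl μ m0 = m →
      (bouquet.{u} loops exits hne).EveWinsFrom W (BV.rd x) → app x w ∈ W) := by
  obtain ⟨next', hgood⟩ := H (bouquet.{u} loops exits hne) bouquet_onePlayer
  let next : BV.{u} α → M → α × BV.{u} α := next'
  have hleg : ∀ v m, BEdge loops exits v (next v m).1 (next v m).2 :=
    fun v m => hgood.1 v (Set.mem_univ _) m
  have hcol : ∀ x, (bouquet.{u} loops exits hne).EveWinsFrom W (BV.rd x) →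
      dcol μ next (BV.rd x, m0) ∈ W := fun x hx => dcol_mem bouquet_onePlayer hgood hx
  have hctr : (∃ l, (next (BV.rd []) m).1 :: l ∈ loops ∧ (next (BV.rd []) m).2 = .rd l) ∨
      (∃ w ∈ exits, (next (BV.rd []) m).1 = w 0 ∧
        (next (BV.rd []) m).2 = .tl (fun n => w (n + 1))) :=
    hleg (BV.rd []) m
  rcases hctr with ⟨l, hl, h2⟩ | ⟨w, hw, h1, h2⟩
  · left
    refine ⟨_, hl, by simp, ?_⟩
    intro x hx hwin hm w hw
    have h3 := hcol x hwin
    rw [dcol_rd hleg, hx] at h3
    have h4 : dcol μ next (BV.rd [], m) = app ((next (BV.rd []) m).1 :: l)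
        (dcol μ next (BV.rd [], m)) := by
      conv_lhs => rw [dcol_eq, h2, dcol_rd hleg]
      have : l.foldl μ (μ m (next (BV.rd []) m).1) = m := hm
      rw [this]
      rfl
    rw [pow_unique (by simp) hw h4]
    exact h3
  · right
    refine ⟨w, hw, ?_⟩
    intro x hx hwin
    have h3 := hcol x hwin
    rw [dcol_rd hleg, hx] at h3
    have h4 : dcol μ next (BV.rd [], m) = w := by
      rw [dcol_eq, h2, dcol_tl hleg, h1]
      exact (eq_cons w).symm
    rw [← h4]
    exact h3

/-- The closure properties obtained from one-player games. -/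
lemma oneP_of_onePlayer {Q X : Type*} {δ : Q → α → Q} {pr : Q → α → ℕ} {q0 : Q}
    (hW : ∀ w, w ∈ W ↔ Pool.Agent.Lib_MP_369bda_lc.Acc δ pr q0 w)
    (H : ∀ G : Game.{u} α, G.OnePlayer → ∃ next, Good1 G W m0 μ next)
    (st : X → Q) (ty : X → M)
    (hreach : ∀ x, ∃ l : List α, ty x = l.foldl μ m0 ∧ st x = l.foldl δ q0) :
    OneP δ pr μ st ty := by
  have hWapp : ∀ (l : List α) w, app l w ∈ W ↔
      Pool.Agent.Lib_MP_369bda_lc.Acc δ pr (l.foldl δ q0) w := fun l w => by
    rw [hW, acc_app]
  refine ⟨?_, ?_, ?_⟩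
  · intro x y hxy
    by_contra hcon
    push Not at hcon
    obtain ⟨hc1, hc2⟩ := hcon
    unfold Lib_MP_369bda_lc.Sub at hc1 hc2
    push Not at hc1 hc2
    obtain ⟨w, hw1, hw2⟩ := hc1
    obtain ⟨w', hw'1, hw'2⟩ := hc2
    obtain ⟨lx, hlx1, hlx2⟩ := hreach x
    obtain ⟨ly, hly1, hly2⟩ := hreach y
    rw [hlx2] at hw1 hw'2
    rw [hly2] at hw2 hw'1
    have hne : (∃ a l, a :: l ∈ (∅ : Set (List α))) ∨ ({w, w'} : Set (ℕ → α)).Nonempty :=
      Or.inr ⟨w, by simp⟩
    have hwx : (bouquet.{u} ∅ {w, w'} hne).EveWinsFrom W (BV.rd lx) :=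
      eveWins_of_canPlay bouquet_onePlayer (canPlay_rd lx (canPlay_exit (w := w) (by simp)))
        ((hWapp lx w).2 hw1)
    have hwy : (bouquet.{u} ∅ {w, w'} hne).EveWinsFrom W (BV.rd ly) :=
      eveWins_of_canPlay bouquet_onePlayer (canPlay_rd ly (canPlay_exit (w := w') (by simp)))
        ((hWapp ly w').2 hw'1)
    rcases bouquet_lemma H hne (ty x) with ⟨u, hu, -⟩ | ⟨v, hv, h⟩
    · exact absurd hu (Set.notMem_empty _)
    · rcases hv with rfl | hv
      · exact hw2 ((hWapp ly _).1 (h ly (by rw [← hly1, hxy]) hwy))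
      · rw [Set.mem_singleton_iff] at hv
        subst hv
        exact hw'2 ((hWapp lx _).1 (h lx hlx1.symm hwx))
  · intro x u w hu hty hns hw
    unfold Lib_MP_369bda_lc.Sub at hns
    push Not at hns
    obtain ⟨w', hw1, hw2⟩ := hns
    obtain ⟨lx, hlx1, hlx2⟩ := hreach x
    rw [hlx2] at hw1 hw2 ⊢
    obtain ⟨a, l, rfl⟩ := List.exists_cons_of_ne_nil hu
    have hne : (∃ a' l', a' :: l' ∈ ({a :: l} : Set (List α))) ∨
        ({w'} : Set (ℕ → α)).Nonempty := Or.inr ⟨w', by simp⟩
    have hwx : (bouquet.{u} {a :: l} {w'} hne).EveWinsFrom W (BV.rd lx) := by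
      refine eveWins_of_canPlay bouquet_onePlayer
        (canPlay_rd lx (canPlay_loop (u := a :: l) (by simp) (by simp)
          (canPlay_exit (w := w') (by simp)))) ?_
      rw [hWapp, acc_app]
      exact hw1
    rcases bouquet_lemma H hne (ty x) with ⟨u, hu', _, h⟩ | ⟨v, hv, h⟩
    · rw [Set.mem_singleton_iff] at hu'
      subst hu'
      exact (hWapp lx _).1 (h lx hlx1.symm hwx hty w hw)
    · rw [Set.mem_singleton_iff] at hv
      subst hv
      exact absurd ((hWapp lx _).1 (h lx hlx1.symm hwx)) hw2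
  · intro x u v w1 w2 w hu hv htu htv hw1 ha1 hw2 ha2 hw hacc
    obtain ⟨lx, hlx1, hlx2⟩ := hreach x
    rw [hlx2] at ha1 ha2 hacc
    have hne : (∃ a' l', a' :: l' ∈ ({u, v} : Set (List α))) ∨
        (∅ : Set (ℕ → α)).Nonempty := by
      obtain ⟨a, l, rfl⟩ := List.exists_cons_of_ne_nil hu
      exact Or.inl ⟨a, l, by simp⟩
    have hwx : (bouquet.{u} {u, v} ∅ hne).EveWinsFrom W (BV.rd lx) :=
      eveWins_of_canPlay bouquet_onePlayer
        (canPlay_rd lx (canPlay_alt (u := u) (t := v) (by simp) hu (by simp) hv hw))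
        ((hWapp lx w).2 hacc)
    rcases bouquet_lemma H hne (ty x) with ⟨t, ht, _, h⟩ | ⟨v, hv, h⟩
    · rcases ht with rfl | ht
      · exact ha1 ((hWapp lx _).1 (h lx hlx1.symm hwx htu w1 hw1))
      · rw [Set.mem_singleton_iff] at ht
        subst ht
        exact ha2 ((hWapp lx _).1 (h lx hlx1.symm hwx htv w2 hw2))
    · exact absurd hv (Set.notMem_empty _)

end bouquet

/-! ## From `k` states to a fixed memory structure -/

section union

variable {α : Type} {W : Set (ℕ → α)}

/-- Disjoint union of games (Eve owns everything). -/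
def unionGame {ι : Type} (G : ι → Game.{u} α) : Game.{u} α where
  V := Σ i, (G i).V
  edge x a y := ∃ v', y = ⟨x.1, v'⟩ ∧ (G x.1).edge x.2 a v'
  total := by
    rintro ⟨i, v⟩
    obtain ⟨a, v', h⟩ := (G i).total v
    exact ⟨a, ⟨i, v'⟩, v', rfl, h⟩
  eve := Set.univ

lemma exists_uniform_memory {k : ℕ} (H : Suffices.{u} (fun G => G.OnePlayer) W k) :
    ∃ (m0 : Fin k) (μ : Fin k → α → Fin k), ∀ G : Game.{u} α, G.OnePlayer →
      ∃ next, Good1 G W m0 μ next := by
  classical
  by_contra hcon
  push Not at hcon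
  choose Gf hone hbad using hcon
  let U := unionGame (ι := Fin k × (Fin k → α → Fin k)) fun i => Gf i.1 i.2
  have hUone : U.OnePlayer := fun v => Set.mem_univ v
  obtain ⟨S, hS⟩ := H U hUone
  let G := Gf S.init S.update
  have hG : G.OnePlayer := hone _ _
  let emb : G.V → U.V := fun v => ⟨(S.init, S.update), v⟩
  have hchoice : ∀ (v : G.V) (m : Fin k), ∃ v' : G.V,
      S.choice (emb v) m = ((S.choice (emb v) m).1, emb v') ∧
        G.edge v (S.choice (emb v) m).1 v' := by
    intro v m
    obtain ⟨v', h1, h2⟩ := S.legal (emb v) (Set.mem_univ _) m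
    exact ⟨v', Prod.ext rfl h1, h2⟩
  choose nx hnx1 hnx2 using hchoice
  refine hbad S.init S.update (fun v m => ((S.choice (emb v) m).1, nx v m)) ⟨?_, ?_⟩
  · intro v _ m
    exact hnx2 v m
  · intro v hv vs cs hplay hcons
    obtain ⟨w, hw, vs', hvs'⟩ := canPlay_of_eveWins hG hv
    have hUwin : U.EveWinsFrom W (emb v) := by
      refine eveWins_of_canPlay hUone (w := w) ⟨fun n => emb (vs' n), ?_, ?_⟩ hw
      · exact congrArg emb hvs'.start
      · intro i
        exact ⟨vs' (i + 1), rfl, hvs'.step i⟩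
    refine hS (emb v) hUwin (fun n => emb (vs n)) cs ⟨?_, ?_⟩ ?_
    · exact congrArg emb hplay.start
    · intro i
      exact ⟨vs (i + 1), rfl, hplay.step i⟩
    · intro i _
      have h1 := hcons i (hG _)
      rw [hnx1]
      have h2 := (Prod.ext_iff.1 h1).1
      have h3 := (Prod.ext_iff.1 h1).2
      simp only at h2 h3
      rw [← h2, ← h3]

end union

/-! ## The main argument -/

section main

variable {α : Type} (G : Game.{u} α) (W : Set (ℕ → α))

/-- Partial plays from `v0` consistent with the strategy `s`. -/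
inductive Reach (s : G.Strategy) (v0 : G.V) : List (G.V × α) → G.V → Prop
  | root : Reach s v0 [] v0
  | step {h : List (G.V × α)} {v : G.V} {a : α} {v' : G.V} : Reach s v0 h v → G.edge v a v' →
      (v ∈ G.eve → (a, v') = s.move h v) → Reach s v0 (h ++ [(v, a)]) v'

variable {G}

lemma Reach.inv {s : G.Strategy} {v0 : G.V} {h : List (G.V × α)} {v : G.V} {a : α} {v' : G.V}
    (hr : Reach G s v0 (h ++ [(v, a)]) v') :
    Reach G s v0 h v ∧ G.edge v a v' ∧ (v ∈ G.eve → (a, v') = s.move h v) := by
  generalize hH : h ++ [(v, a)] = H at hr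
  cases hr with
  | root => simp at hH
  | step h1 h2 h3 =>
    obtain ⟨e1, e2⟩ := List.append_inj' hH rfl
    simp only [List.cons.injEq, Prod.mk.injEq, and_true] at e2
    obtain ⟨rfl, rfl⟩ := e2
    subst e1
    exact ⟨h1, h2, h3⟩

variable (G)

/-- Nodes of the forest of all partial plays consistent with the strategies `σ v`. -/
structure Node (σ : G.V → G.Strategy) where
  start : G.V
  hist : List (G.V × α)
  cur : G.V
  win : G.EveWinsFrom W start
  reach : Reach G (σ start) start hist cur

variable {G W}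

/-- Steps between nodes. -/
def nstp {σ : G.V → G.Strategy} (x : Node G W σ) (a : α) (y : Node G W σ) : Prop :=
  y.start = x.start ∧ y.hist = x.hist ++ [(x.cur, a)]

/-- The value of a deterministic system at a node. -/
def nval {S : Type*} (f : S → α → S) (s : S) {σ : G.V → G.Strategy} (x : Node G W σ) : S :=
  (x.hist.map Prod.snd).foldl f s

lemma nval_step {S : Type*} (f : S → α → S) (s : S) {σ : G.V → G.Strategy} {x : Node G W σ}
    {a : α} {y : Node G W σ} (h : nstp x a y) : nval f s y = f (nval f s x) a := by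
  unfold nval
  rw [h.2, List.map_append, List.foldl_append]
  rfl

lemma nstp_unique {σ : G.V → G.Strategy} {x y : Node G W σ} {a b : α} (h : nstp x a y)
    (h' : nstp x b y) : a = b := by
  have h1 := h.2
  rw [h'.2] at h1
  have := (List.append_inj' h1 rfl).2
  simp only [List.cons.injEq, Prod.mk.injEq, and_true, true_and] at this
  exact this.symm

/-- Infinite paths in the forest satisfy the parity condition. -/
lemma pacc_of_nodes {Q : Type*} {δ : Q → α → Q} {pr : Q → α → ℕ} {q0 : Q}
    (hW : ∀ w, w ∈ W ↔ Pool.Agent.Lib_MP_369bda_lc.Acc δ pr q0 w)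
    {σ : G.V → G.Strategy} (hσ : ∀ v, G.EveWinsFrom W v → (σ v).WinsFrom W v) :
    ∀ (v0 : G.V) (h : List (G.V × α)) (v : G.V), Reach G (σ v0) v0 h v →
      ∀ (x : ℕ → Node G W σ) (a : ℕ → α), (x 0).start = v0 → (x 0).hist = h → (x 0).cur = v →
        (∀ n, nstp (x n) (a n) (x (n + 1))) → PAcc fun n => pr (nval δ q0 (x n)) (a n) := by
  intro v0 h v hr
  induction hr with
  | root =>
    intro x a hstart hhist hcur hstp
    have hst : ∀ n, (x n).start = v0 := by
      intro n
      induction n with
      | zero => exact hstart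
      | succ n ih => rw [(hstp n).1, ih]
    have hpast : ∀ n, G.past (fun n => (x n).cur) a n = (x n).hist := by
      intro n
      induction n with
      | zero => rw [hhist]; rfl
      | succ n ih =>
        rw [(hstp n).2, ← ih]
        simp [Game.past, List.range_succ]
    have hinv : ∀ n, G.edge (x n).cur (a n) (x (n + 1)).cur ∧
        ((x n).cur ∈ G.eve → (a n, (x (n + 1)).cur) = (σ v0).move (x n).hist (x n).cur) := by
      intro n
      have h1 := (x (n + 1)).reach
      rw [(hstp n).2, hst (n + 1)] at h1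
      exact h1.inv.2
    have hwin : G.EveWinsFrom W v0 := hstart ▸ (x 0).win
    have hacc := hσ v0 hwin (fun n => (x n).cur) a ⟨hcur, fun i => (hinv i).1⟩
      (fun i hi => by rw [hpast]; exact (hinv i).2 hi)
    rw [hW] at hacc
    have hrun : ∀ n, run δ q0 a n = nval δ q0 (x n) := by
      intro n
      induction n with
      | zero => unfold nval; rw [hhist]; rfl
      | succ n ih => rw [nval_step δ q0 (hstp n), ← ih]; rfl
    unfold Pool.Agent.Lib_MP_369bda_lc.Acc at hacc
    simp only [hrun] at hacc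
    exact hacc
  | @step h v b v' hr he hs ih =>
    intro x a hstart hhist hcur hstp
    let y : Node G W σ := ⟨v0, h, v, hstart ▸ (x 0).win, hr⟩
    have hy : nstp y b (x 0) := ⟨hstart, hhist⟩
    have := ih (fun n => Nat.casesOn n y x) (cons b a) rfl rfl rfl (by
      intro n
      cases n with
      | zero => exact hy
      | succ n => exact hstp n)
    rw [← pacc_succ] at this
    exact this

/-- The lift for a fixed memory structure. -/
theorem lift [Finite α] {M : Type} [Finite M] {m0 : M} {μ : M → α → M} (hW : OmegaRegular W)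
    (H : ∀ G : Game.{u} α, G.OnePlayer → ∃ next, Good1 G W m0 μ next) (G : Game.{u} α) :
    ∃ next, Good1 G W m0 μ next := by
  classical
  obtain ⟨A, hA⟩ := hW
  have hfin : Finite A.State := A.finite
  set δ := A.next with hδ
  set pr := A.prio with hpr
  set q0 := A.init with hq0
  have hA' : ∀ w, w ∈ W ↔ Pool.Agent.Lib_MP_369bda_lc.Acc δ pr q0 w := hA
  obtain ⟨d, hd⟩ : ∃ d, ∀ q a, pr q a < d := by
    have : (Set.range fun p : A.State × α => pr p.1 p.2).Finite := Set.finite_range _
    obtain ⟨b, hb⟩ := this.bddAbove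
    exact ⟨b + 1, fun q a => Nat.lt_succ_of_le (hb ⟨(q, a), rfl⟩)⟩
  -- default moves and strategies
  choose a0 v0 hav using G.total
  have hσ' : ∀ v, ∃ σ : G.Strategy, G.EveWinsFrom W v → σ.WinsFrom W v := by
    intro v
    by_cases h : G.EveWinsFrom W v
    · obtain ⟨σ, hσ⟩ := h
      exact ⟨σ, fun _ => hσ⟩
    · exact ⟨⟨fun _ v => (a0 v, v0 v), fun _ v _ => hav v⟩, fun h' => absurd h' h⟩
  choose σ hσ using hσ'
  -- the forest
  let X := Node G W σ
  let st : X → A.State := nval δ q0
  let ty : X → M := nval μ m0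
  have hstp : ∀ (x : X) a (y : X), nstp x a y → ty y = μ (ty x) a ∧ st y = δ (st x) a :=
    fun x a y h => ⟨nval_step μ m0 h, nval_step δ q0 h⟩
  have H1 : OneP δ pr μ st ty :=
    oneP_of_onePlayer hA' H st ty fun x => ⟨x.hist.map Prod.snd, rfl, rfl⟩
  -- ranks
  have hrk : ∀ k : ℕ, ∃ rk : X → Ordinal.{u}, Odd k →
      (∀ x y a, nstp x a y → pr (st x) a ≤ k → rk y ≤ rk x) ∧
      (∀ x y a, nstp x a y → pr (st x) a = k → rk y < rk x) := by
    intro k
    by_cases hk : Odd k
    swap
    · exact ⟨fun _ => 0, fun h => absurd h hk⟩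
    obtain ⟨rk, h1, h2⟩ := exists_rank
      (fun x y : X => ∃ a, nstp x a y ∧ pr (st x) a ≤ k)
      (fun x y : X => ∃ a, nstp x a y ∧ pr (st x) a = k)
      (fun x y ⟨a, h, h'⟩ => ⟨a, h, h'.le⟩) (by
        intro f hf hS
        choose a ha1 ha2 using hf
        have hacc := pacc_of_nodes hA' hσ _ _ _ (f 0).reach f a rfl rfl rfl ha1
        obtain ⟨π, hπ1, hπ2, hπ3⟩ := hacc
        obtain ⟨n, hn⟩ := hπ2.exists
        have hle : π ≤ k := hn ▸ ha2 n
        obtain ⟨n', ⟨b, hb1, hb2⟩, hn'⟩ := (hS.and_eventually hπ3).exists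
        have hb : b = a n' := nstp_unique hb1 (ha1 n')
        subst hb
        have hge : k ≤ π := hb2 ▸ hn'
        have : π = k := le_antisymm hle hge
        subst this
        exact (Nat.not_even_iff_odd.2 hk) hπ1)
    exact ⟨rk, fun _ => ⟨fun x y a h h' => h1 x y ⟨a, h, h'⟩, fun x y a h h' => h2 x y ⟨a, h, h'⟩⟩⟩
  choose rk hrk using hrk
  let E0 : X → X → Prop := fun x y => ty x = ty y ∧ st x = st y ∧ ∀ k : Fin d, rk k y ≤ rk k x
  have hrefl : ∀ x, E0 x x := fun x => ⟨rfl, rfl, fun _ => le_refl _⟩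
  have htrans : ∀ x y z, E0 x y → E0 y z → E0 x z := fun x y z h h' =>
    ⟨h.1.trans h'.1, h.2.1.trans h'.2.1, fun k => (h'.2.2 k).trans (h.2.2 k)⟩
  have hwqo : WellQuasiOrdered fun x y => E0 y x := by
    have h1 : WellQuasiOrdered (fun a b : M × A.State => a = b) := Finite.wellQuasiOrdered _
    have h2 : WellQuasiOrdered (fun a b : Fin d → Ordinal.{u} => ∀ i, a i ≤ b i) :=
      WellQuasiOrdered.pi fun _ => wellQuasiOrdered_le
    have h3 := h1.prod h2
    intro f
    obtain ⟨m, n, hmn, h4, h5⟩ := h3 fun i => ((ty (f i), st (f i)), fun k : Fin d => rk k (f i))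
    exact ⟨m, n, hmn, (Prod.ext_iff.1 h4).1.symm, (Prod.ext_iff.1 h4).2.symm, h5⟩
  have hE0 : Good δ pr st ty nstp E0 := by
    refine ⟨fun x y h => h.1, fun x y h => ?_, ?_⟩
    · rw [h.2.1]; exact Sub.refl _
    · intro x u w hu hp hw
      have key : ∀ (u : List α) (y : X), Path nstp E0 x u y → u.foldl δ (st x) = st y ∧
          ∀ k : Fin d, Odd (k : ℕ) → ((prof δ pr hd u (st x)).2 : ℕ) ≤ k + 1 →
            rk k y ≤ rk k x ∧ (((prof δ pr hd u (st x)).2 : ℕ) = k + 1 → rk k y < rk k x) := by
        intro u y hp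
        induction hp with
        | nil =>
          refine ⟨rfl, fun k hk _ => ⟨le_refl _, fun h => ?_⟩⟩
          rw [prof_nil] at h
          simp [Prof.one_apply] at h
        | eps _ he ih =>
          refine ⟨ih.1.trans he.2.1, fun k hk h => ⟨?_, fun h' => ?_⟩⟩
          · exact (he.2.2 k).trans (ih.2 k hk h).1
          · exact (he.2.2 k).trans_lt ((ih.2 k hk h).2 h')
        | @snoc u y a z _ hs ih =>
          refine ⟨?_, fun k hk h => ?_⟩
          · rw [List.foldl_append, ih.1]; exact (hstp _ _ _ hs).2.symm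
          · rw [prof_snoc] at h ⊢
            have hfst : (prof δ pr hd u (st x)).1 = st y := by rw [prof_fst, ih.1]
            simp only [hfst, Fin.coe_max] at h ⊢
            have hm1 : ((prof δ pr hd u (st x)).2 : ℕ) ≤ k + 1 := (le_max_left _ _).trans h
            have hm2 : pr (st y) a + 1 ≤ k + 1 := (le_max_right _ _).trans h
            have hle := (hrk k hk).1 y z a hs (by omega)
            refine ⟨hle.trans (ih.2 k hk hm1).1, fun h' => ?_⟩
            rcases max_choice ((prof δ pr hd u (st x)).2 : ℕ) (pr (st y) a + 1) with hmx | hmx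
            · rw [hmx] at h'
              exact hle.trans_lt ((ih.2 k hk hm1).2 h')
            · rw [hmx] at h'
              exact ((hrk k hk).2 y z a hs (by omega)).trans_le (ih.2 k hk hm1).1
      obtain ⟨hfold, hkey⟩ := key u x hp
      have hpos := prof_snd_pos δ pr hd hu (st x)
      obtain ⟨π, hπ⟩ : ∃ π, ((prof δ pr hd u (st x)).2 : ℕ) = π + 1 := ⟨_, (Nat.succ_pred_eq_of_pos hpos).symm⟩
      have hπd : π < d := by
        have := (prof δ pr hd u (st x)).2.2
        omega
      rw [acc_pow_cycle δ pr hd (st x) hu hw hfold hπ]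
      by_contra hodd
      rw [Nat.not_even_iff_odd] at hodd
      exact lt_irrefl _ ((hkey ⟨π, hπd⟩ hodd hπ.le).2 hπ)
  -- saturation
  obtain ⟨E, hE, hE0E, htot⟩ := saturate hd hstp H1 hE0
  -- least nodes
  let N : G.V → M → Set X := fun v m => {x | x.cur = v ∧ ty x = m}
  have hleast : ∀ v m, (N v m).Nonempty → ∃ x ∈ N v m, ∀ y ∈ N v m, Path nstp E y [] x :=
    fun v m hne => exists_least hE0E hwqo htot (N v m) hne
      (fun x hx y hy => hx.2.trans hy.2.symm)
  let xs : ∀ v m, (N v m).Nonempty → X := fun v m h => (hleast v m h).choose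
  have hxs : ∀ v m (h : (N v m).Nonempty), xs v m h ∈ N v m ∧
      ∀ y ∈ N v m, Path nstp E y [] (xs v m h) := fun v m h => (hleast v m h).choose_spec
  let next : G.V → M → α × G.V := fun v m =>
    if h : (N v m).Nonempty then (σ (xs v m h).start).move (xs v m h).hist v else (a0 v, v0 v)
  refine ⟨next, ?_, ?_⟩
  · intro v hv m
    simp only [next]
    split_ifs with h
    · exact (σ _).legal _ v hv
    · exact hav v
  · intro v hv vs cs hplay hcons
    let mem : ℕ → M := run μ m0 cs
    let root : X := ⟨v, [], v, hv, Reach.root⟩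
    -- the child of the least node
    have hchild : ∀ i (h : (N (vs i) (mem i)).Nonempty), ∃ y : X,
        nstp (xs _ _ h) (cs i) y ∧ y ∈ N (vs (i + 1)) (mem (i + 1)) := by
      intro i h
      obtain ⟨⟨hc, ht⟩, -⟩ := hxs _ _ h
      have hr : Reach G (σ (xs _ _ h).start) (xs _ _ h).start
          ((xs _ _ h).hist ++ [((xs _ _ h).cur, cs i)]) (vs (i + 1)) := by
        refine Reach.step (xs _ _ h).reach ?_ ?_
        · rw [hc]; exact hplay.step i
        · intro he
          rw [hc] at he ⊢
          have := hcons i he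
          rw [this]
          simp only [next]
          rw [dif_pos h]
      refine ⟨⟨(xs _ _ h).start, _, vs (i + 1), (xs _ _ h).win, hr⟩, ⟨rfl, rfl⟩, rfl, ?_⟩
      have := nval_step μ m0 (x := xs _ _ h) (a := cs i)
        (y := ⟨(xs _ _ h).start, _, vs (i + 1), (xs _ _ h).win, hr⟩) ⟨rfl, rfl⟩
      change nval μ m0 _ = _
      rw [this]
      change μ (ty (xs _ _ h)) (cs i) = μ (mem i) (cs i)
      rw [ht]
    have hne : ∀ i, (N (vs i) (mem i)).Nonempty := by
      intro i
      induction i with
      | zero => exact ⟨root, hplay.start.symm, rfl⟩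
      | succ i ih =>
        obtain ⟨y, _, hy⟩ := hchild i ih
        exact ⟨y, hy⟩
    have hacc := acc_of_path hd hstp hE hE0E hrefl htrans hwqo (fun i => xs _ _ (hne i)) cs (by
      intro i
      obtain ⟨y, hy1, hy2⟩ := hchild i (hne i)
      exact ⟨y, hy1, (hxs _ _ (hne (i + 1))).2 y hy2⟩)
    have hroot : Path nstp E root [] (xs _ _ (hne 0)) :=
      (hxs _ _ (hne 0)).2 root ⟨hplay.start.symm, rfl⟩
    have hsub := (hroot.ri hstp hE.ty_eq hE.sub).2
    rw [hA']
    exact hsub _ hacc

end main

/-- **One-to-two-player lift.** For an omega-regular objective `W` and a number `k` of memory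
states: Eve can play with chromatic strategies with `k` memory states in all one-player games if
and only if she can do so in all games. -/
theorem result {α : Type} [Finite α] (W : Set (ℕ → α)) (hW : OmegaRegular W) (k : ℕ) :
    Suffices.{u} (fun G => G.OnePlayer) W k ↔ Suffices.{u} (fun _ => True) W k := by
  constructor
  · intro H G _
    obtain ⟨m0, μ, hμ⟩ := exists_uniform_memory H
    obtain ⟨next, hleg, hwin⟩ := lift hW hμ G
    exact ⟨⟨m0, μ, next, hleg⟩, fun v hv vs cs hp hc => hwin v hv vs cs hp hc⟩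
  · intro H G _
    exact H G trivial

end Pool.Agent.Results.MP_369bda_lc.OneToTwoPlayerLift
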